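import Pool.Agent.W558.WT.LU
import Pool.Agent.N762.FP.Root2

/-!
MP_3029eb_ag: local uniformization, in all dimensions and at all valuations, of the local rings of
the varieties over a perfect field `k` of characteristic `p` whose function fields are constructed
from function fields of surfaces by products, by families of varieties of bounded degree, by
adjoining zeros of polynomials of degree less than `p` with controlled discriminants, and by
radicals. The bounds for `p` do not depend on the dimension of the variety.

The theorem is about the pairs `(K, P)` of a field `K` and a set `P` of elements of `K` which are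
obtained from the pairs `(E, E)`, where `E` is the function field of a surface, by finitely many of
the operations of `IsAdmissible`, in any order. Let `A` be a finitely generated `k`-algebra with
fraction field `K` which is integral over a subalgebra generated by finitely many elements of `P`.
Then all local rings of `A` admit local uniformization at all valuations.

Examples of the pairs `(K, P)`:

* Let `S` be a smooth projective surface over `k` and `p ≥ 5`. The fibre products over `S` of any
  number of Weierstrass fibrations `y ^ 2 = x ^ 3 + a * x + b`, where `a` and `b` are rational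
  functions on `S`: the coordinate `x` is a family of dimension one and degree one, the polynomials
  in `x` of degree at most `3 < p` over the function field `E` of `S` can be added to `P`, and `y`
  is a radical.

* The fibre products over `S` of any number of varieties `Y i ⊆ S × P ^ (N i)` whose fibres over
  `S` have dimension `r i` and degree at most `δ i`, where `(δ i) ^ 2 ^ (r i) < p` for each `i`, and
  the products over `k` of such fibre products for different surfaces; the coverings of these
  varieties which are given by radicals, with exponents prime to `p`, of products of forms of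
  bounded degree on the factors.

* The cubic coverings `z ^ 3 + a * z + b = 0` (`p ≥ 5`) of a variety with function field `L`, where
  `a`, `b` and `4 * a ^ 3 + 27 * b ^ 2` are in `P`: then `z` and `3 * z ^ 2 + a` can be added to
  `P`.

* The Legendre fibrations `y ^ 2 = x * (x - a) * (x - b)` (`p ≠ 2`) over a variety with function
  field `L`, where `a`, `b` and `a - b` are in `P`. The coverings `z ^ p - z = a * x ^ m`, where `a`
  is in `P`, `x` is transcendental over `L` and `p ∤ m`.

* The quadric bundles `∑ q i j * x i * x j = 0` (`p ≠ 2`) over a variety with function field `L`,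
  where the leading principal minors of the symmetric matrix `q` over `L` are in `P` (after a
  diagonalization `∑ a i * x' i ^ 2 = 0`, where the `a i` are in `P`, the `a i * x' i ^ 2` are the
  coordinates of a hyperplane over `k`, and the `x' i` are radicals).

* The coverings `z ^ p = f (a ^ p, b ^ p, x 1, ..., x n)`, where `a`, `b` are rational functions on
  the surface, and `f` is a polynomial of degree at most `δ` in `x 1, ..., x n`, with
  `δ ^ 2 ^ n < p`.

The proof: an element of `P` is a boundary function on a model if its zeros and poles are in the
boundary. For each pair of the class there are smooth projective models with normal crossings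
boundary on which given finitely many elements of `P` are boundary functions.

(1) Products: the product of two models.

(2) Adjoining one element `z`: the members of `Φ` become boundary functions on a modification of the
product of a model of `L` with the projective line; this is shown by induction on the degree, using
the derivatives (`N98.p1`). If `z` is a zero of a member of `Φ`, then the zeros of its minimal
polynomial are a component of the boundary, and we restrict to this component (`RC.cut'`).

(3) Families: let `m i = p ^ ε i * n' i` with `p ∤ n' i`, `z i = y i ^ n' i`. The equations of the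
`t i = z i ^ p ^ ε i` of degree `< p` show that the field `E (z)` is separable over
`E (z (j 1), ..., z (j r))`, where the `z (j c)` are a transcendence basis of greatest exponents. A
general linear projection over `F` of the variety with the generic point `t` has coordinates
`u = ∑ c i * t i` and the `t (j c)`, and the `t i` are rational functions of degree at most `δ` in
them; hence the `z i` are in the field generated over `E` by `u` and the `z (j c)` (`RC2.proj`). For
these coordinates the step (2) is repeated; the discriminants and resultants of twisted polynomials
of degree `< p` over `E` are again of this form. This is done over `L` with polynomials over `E`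
(`FP.main2`); the equations over `E` remain valid over `L`, since the field `E (y)` is free from `L`
over `E` (`FP.rel_lift`).

(4) Radical extensions with exponents prime to `p` are toroidal over such a model, and a root of a
boundary function is a boundary function (`RC2.isBr_of_pow`).
Finally the centres of the valuations on the charts of the models are regular points.

helper762, helper98; built on the library of helper98 and on the library of the starting files
(helpers 558, 214, 973, 418 and others). This theorem contains the former hand-in
`RadicalCoversBoundedDegreeLU` (one family) on this problem.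
-/

set_option autoImplicit false

open AlgebraicGeometry CategoryTheory Polynomial Pool.Agent.W558 Pool.Agent.N98

namespace Pool.Agent.Results.MP_3029eb_ag.AdmissibleTowersLU

/-- The values at the point `x` of the polynomials over `F` of total degree at most `t`. -/
noncomputable def values (F : Type) {K : Type} [Field F] [Field K] [Algebra F K] {N : ℕ}
    (x : Fin N → K) (t : ℕ) : Submodule F K :=
  (MvPolynomial.restrictTotalDegree (Fin N) F t).map
    (MvPolynomial.aeval x : MvPolynomial (Fin N) F →ₐ[F] K).toLinearMap

/-- The variety in the affine space over `F` with the generic point `x` (the zeros of the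
polynomials over `F` which vanish at `x`), whose function field is `F (x)`, has dimension `r` and
degree at most `δ`: its Hilbert function, the dimension over `F` of the space of the polynomial
functions of degree at most `t` on the variety, is at most `δ * t ^ r / r! + O (t ^ (r - 1))`. -/
def DegreeAtMost (F : Type) {K : Type} [Field F] [Field K] [Algebra F K] {N : ℕ}
    (x : Fin N → K) (r δ : ℕ) : Prop :=
  Algebra.trdeg F (IntermediateField.adjoin F (Set.range x)) = r ∧
    ∃ C : ℕ, ∀ t : ℕ, r.factorial * Module.finrank F (values F x t) ≤ δ * (t + C) ^ r

/-- The smallest class of pairs `(K, P)`, where `K` is an extension of the field `k` and `P` is a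
set of elements of `K`, with the following properties. -/
inductive IsAdmissible (p : ℕ) (k : Type) [Field k] :
    (K : Type) → [Field K] → [Algebra k K] → Set K → Prop
  /-- If `E` is the function field of a smooth projective surface, then `(E, E)` is in the class.
  -/
  | surface (E : Type) [Field E] [Algebra k E] (h2 : Algebra.trdeg k E = 2)
      (hE : HasModel k E) : IsAdmissible p k E Set.univ
  /-- If each finite family of nonzero elements of `P` has its zeros and poles in a simple normal
  crossings divisor on some smooth projective variety with function field `E`, then `(E, P)` is in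
  the class. (Examples: `E = k`; function fields of curves, with `P = E`.) -/
  | models (E : Type) [Field E] [Algebra k E] (P : Set E)
      (hE : ∀ (m : ℕ) (g : Fin m → E), (∀ b, g b ∈ P) → (∀ b, g b ≠ 0) →
        ∃ (N L : ℕ) (H : Fin (N + 1) → E) (x : Fin (N + 1) → Fin L → E)
          (Γ : Fin m → Fin L → ℤ), IsLogModel (k := k) g H x Γ) :
      IsAdmissible p k E P
  /-- **Products.** If `(K₁, P₁)` and `(K₂, P₂)` are in the class, and `K` is the field of fractions
  of the image of `K₁ ⊗ K₂`, where the homomorphism from `K₁ ⊗ K₂` to `K` is injective (if `k` is
  algebraically closed, `K` is the function field of the product of varieties with the function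
  fields `K₁` and `K₂`), then `(K, P₁ ∪ P₂)` is in the class. -/
  | product (K₁ K₂ K : Type) [Field K₁] [Field K₂] [Field K] [Algebra k K₁] [Algebra k K₂]
      [Algebra k K] (P₁ : Set K₁) (P₂ : Set K₂) (h₁ : IsAdmissible p k K₁ P₁)
      (h₂ : IsAdmissible p k K₂ P₂) (ι₁ : K₁ →ₐ[k] K) (ι₂ : K₂ →ₐ[k] K)
      (hι : Function.Injective (Algebra.TensorProduct.productMap ι₁ ι₂))
      (hK : IntermediateField.adjoin k (Set.range ι₁ ∪ Set.range ι₂) = ⊤) :
      IsAdmissible p k K (ι₁ '' P₁ ∪ ι₂ '' P₂)
  /-- **Families of bounded degree.** Let `(L, P)` be in the class, and let `E` be a field contained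
  in `P`. Let `F` be a field of `p ^ e`-th powers of elements of `E` over which `E` is algebraic,
  for example `E ^ (p ^ e)` (or `E` if `e = 0`). Let `K` be generated over `L` by
  `y 1, ..., y N` and have transcendence degree `r` over `L`, and let the exponents `m i` be not
  divisible by `p ^ (e + 1)` and such that `(y 1 ^ m 1, ..., y N ^ m N)` is the generic point of a
  variety over `F` of dimension `r` and degree at most `δ`. (So `K` is the function field of a
  component of the product over `E` of a variety with the function field `L` and of a variety over
  `E` which is a component of the inverse image of a variety of dimension `r` and degree at most `δ`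
  over `F`.) Suppose that `(s * δ) ^ 2 ^ r < p` and `F` is infinite, or that
  `(max s δ) ^ 2 ^ (N - 1) < p`. Then the `y i` and the polynomials over `F` of degree at most `s`
  in the `y i ^ m i` can be added to `P`. -/
  | family (L K F E : Type) [Field L] [Field K] [Field F] [Field E] [Algebra k L] [Algebra k K]
      [Algebra L K] [IsScalarTower k L K] [Algebra E L] [Algebra E K] [IsScalarTower E L K]
      [Algebra F E] [Algebra F K] [IsScalarTower F E K] [Algebra.IsAlgebraic F E]
      (P : Set L) (h : IsAdmissible p k L P) (hE : ∀ a : E, algebraMap E L a ∈ P)
      (e : ℕ) (hF : ∀ a : F, ∃ b : E, b ^ p ^ e = algebraMap F E a)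
      (N r δ s : ℕ) (y : Fin N → K) (hy : IntermediateField.adjoin L (Set.range y) = ⊤)
      (hr : Algebra.trdeg L K = r) (m : Fin N → ℕ) (hm : ∀ i, ¬ p ^ (e + 1) ∣ m i)
      (hδ : DegreeAtMost F (fun i => y i ^ m i) r δ) (hs : 1 ≤ s)
      (hp : (Infinite F ∧ (s * δ) ^ 2 ^ r < p) ∨ max s δ ^ 2 ^ (N - 1) < p) :
      IsAdmissible p k K (algebraMap L K '' P ∪ (Set.range y ∪
        {z | ∃ G : MvPolynomial (Fin N) F,
          G.totalDegree ≤ s ∧ z = MvPolynomial.aeval (fun i => y i ^ m i) G}))
  /-- **Adjoining one element.** Let `(L, P)` be in the class, and let `Φ` be a set of nonzero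
  polynomials over `L` of degree at most `Δ < p`, which contains `X`, is closed under derivatives,
  whose constant members are in `P`, and such that for `f`, `g` in `Φ`, where `f` is not constant,
  there is a nonzero polynomial `Q` of degree at most `Δ` (for example the characteristic
  polynomial of `g` modulo `f`) whose nonzero coefficients are in `P`, such that `f` divides
  `Q (g)`. Let `K = L (z)`, where `z` is transcendental over `L` or a zero of a member of `Φ`. Then
  the values at `z` of the members of `Φ` can be added to `P`. -/
  | element (L K : Type) [Field L] [Field K] [Algebra k L] [Algebra k K] [Algebra L K]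
      [IsScalarTower k L K] (P : Set L) (h : IsAdmissible p k L P) (Δ : ℕ) (hΔ : Δ < p)
      (Φ : Set L[X]) (h0 : ∀ f ∈ Φ, f ≠ 0) (hdeg : ∀ f ∈ Φ, f.natDegree ≤ Δ) (hX : X ∈ Φ)
      (hder : ∀ f ∈ Φ, 1 ≤ f.natDegree → derivative f ∈ Φ)
      (hconst : ∀ f ∈ Φ, f.natDegree = 0 → f.coeff 0 ∈ P)
      (hQ : ∀ f ∈ Φ, ∀ g ∈ Φ, 1 ≤ f.natDegree → ∃ Q : L[X], Q ≠ 0 ∧ Q.natDegree ≤ Δ ∧
        f ∣ Q.comp g ∧ ∀ n, Q.coeff n ≠ 0 → Q.coeff n ∈ P)
      (z : K) (hz : IntermediateField.adjoin L {z} = ⊤)
      (hz' : Transcendental L z ∨ ∃ f ∈ Φ, aeval z f = 0) :
      IsAdmissible p k K (algebraMap L K '' P ∪ {y | ∃ f ∈ Φ, y = aeval z f})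
  /-- **Radicals.** Let `(L, P)` be in the class, and let `K` be generated over `L` by elements
  `w j ≠ 0` such that `(w j) ^ (n j)` is in `P`, for an exponent `n j` prime to `p`. Then the `w j`
  can be added to `P`. -/
  | radical (L K : Type) [Field L] [Field K] [Algebra k L] [Algebra k K] [Algebra L K]
      [IsScalarTower k L K] (P : Set L) (h : IsAdmissible p k L P) (g : ℕ) (w : Fin g → K)
      (n : Fin g → ℕ) (hw0 : ∀ j, w j ≠ 0) (hn : ∀ j, ¬ p ∣ n j)
      (hw : ∀ j, ∃ z ∈ P, w j ^ n j = algebraMap L K z)
      (hK : IntermediateField.adjoin L (Set.range w) = ⊤) :
      IsAdmissible p k K (algebraMap L K '' P ∪ Set.range w)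
  /-- **Products and roots.** If `(K, P)` is in the class, and each nonzero element of `Q` has a
  power which is a product of a constant and of (positive or negative) powers of elements of `P`,
  then `(K, Q)` is in the class. -/
  | saturation (K : Type) [Field K] [Algebra k K] (P Q : Set K) (h : IsAdmissible p k K P)
      (hQ : ∀ z ∈ Q, z ≠ 0 → ∃ n : ℕ, n ≠ 0 ∧ ∃ (c : k) (l : ℕ) (a : Fin l → K) (e : Fin l → ℤ),
        (∀ i, a i ∈ P) ∧ z ^ n = algebraMap k K c * ∏ i, a i ^ e i) :
      IsAdmissible p k K Q

/-- Finite families of elements of `P` are boundary functions on log smooth models. -/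
theorem mod_of_admissible (p : ℕ) [Fact p.Prime] (k : Type) [Field k] [PerfectField k]
    [CharP k p] (K : Type) [Field K] [Algebra k K] (P : Set K) (h : IsAdmissible p k K P) :
    Pool.Agent.N762.FP.Mod k P := by
  induction h with
  | surface E h2 hE =>
    exact Pool.Agent.N762.FP.mod_base (Pool.Agent.W418.LCI.hasLM_of_surface k E h2 hE)
  | models E P hE => exact Pool.Agent.N762.FP.mod_models hE
  | product K₁ K₂ K P₁ P₂ h₁ h₂ ι₁ ι₂ hι hK ih₁ ih₂ =>
    exact Pool.Agent.N762.FP.mod_prod ι₁ ι₂ hι hK ih₁ ih₂
  | family L K F E P h hE e hF N r δ s y hy hr m hm hδ hs hp ih =>
    obtain ⟨htr, C, hC⟩ := hδ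
    exact Pool.Agent.N762.FP.mod_fam p ih hE y m e hm hF hy r δ C htr hr hC s hs
      (hp.imp (fun h => ⟨h.1, factorial_ne_zero_of_lt p (Fact.out : p.Prime) h.2⟩)
        (fun h => factorial_ne_zero_of_lt p (Fact.out : p.Prime) h))
  | element L K P h Δ hΔ Φ h0 hdeg hX hder hconst hQ z hz hz' ih =>
    exact Pool.Agent.N762.FP.mod_root ih Δ (factorial_ne_zero_of_lt p (Fact.out : p.Prime) hΔ) Φ
      h0 hdeg hX hder hconst hQ z hz hz'
  | radical L K P h g w n hw0 hn hw hK ih =>
    exact Pool.Agent.N762.FP.mod_rad p ih w hw0 n hn hw hK
  | saturation K P Q h hQ ih => exact Pool.Agent.N762.FP.mod_sat ih hQ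

/-- The local domain `R` admits local uniformization: for every valuation ring `V` of the fraction
field `L` of `R` centred on `R` there is a finitely generated `R`-algebra `B` in `V` whose
localization at the centre `P` of `V` is regular. -/
def AdmitsLocalUniformization (R : Type) [CommRing R] : Prop :=
  ∀ (L : Type) [Field L] [Algebra R L] [IsFractionRing R L] (V : ValuationSubring L),
    (∀ r : R, algebraMap R L r ∈ V) →
    (∀ r : R, r ∈ nonunits R ↔ V.valuation (algebraMap R L r) < 1) →
    ∃ B : Subalgebra R L, B.FG ∧ (∀ b : B, (b : L) ∈ V) ∧
      ∃ P : Ideal B, ∃ (_ : P.IsPrime),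
        (∀ b : B, b ∈ P ↔ V.valuation (b : L) < 1) ∧
        IsRegularLocalRing (Localization.AtPrime P)

/-- Let `k` be a perfect field of characteristic `p`, and let `(K, P)` be a pair of an extension of
`k` and a set of its elements which is obtained from function fields of surfaces by the operations
of `IsAdmissible`. Let `A` be a finitely generated `k`-algebra with fraction field `K` which is
integral over the subalgebra generated by elements `b 1, ..., b l` of `A` which are in `P`. Then
every local ring `R` of `A` admits local uniformization. -/
theorem result (p : ℕ) [Fact p.Prime] (k : Type) [Field k] [PerfectField k] [CharP k p]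
    (K : Type) [Field K] [Algebra k K] (P : Set K) (hP : IsAdmissible p k K P)
    (A : Type) [CommRing A] [IsDomain A] [Algebra k A] [Algebra.FiniteType k A] [Algebra A K]
    [IsScalarTower k A K] [IsFractionRing A K] (l : ℕ) (b : Fin l → A)
    (hbP : ∀ i, algebraMap A K (b i) ∈ P)
    (hA : ∀ a : A, IsIntegral (Algebra.adjoin k (Set.range b)) a)
    (q : Ideal A) [q.IsPrime] (R : Type) [CommRing R] [Algebra A R]
    [IsLocalization.AtPrime R q] : AdmitsLocalUniformization R := by
  classical
  obtain ⟨T, I, hT, hI, M, hFr, hM⟩ := mod_of_admissible p k K P hP
    {i : Fin l // algebraMap A K (b i) ≠ 0} (fun i => algebraMap A K (b i.1)) (fun i => hbP i.1)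
    (fun i => i.2)
  have hinj : Function.Injective (algebraMap A K) := IsFractionRing.injective A K
  obtain ⟨T', I', hT', hI', ⟨M'⟩⟩ := LM_of_isBr M hFr A b (fun j hj =>
    hM ⟨j, fun h0 => hj (hinj (h0.trans (map_zero _).symm))⟩) hA
  intro K' _ _ _ W hV1 hV2
  have hR : IsLocalRing R := IsLocalization.AtPrime.isLocalRing R q
  obtain ⟨B', h1, h2, P', hP', h3, h4, h5⟩ := Pool.Agent.W558.WT.uniformized_of_LM2 M' q (R := R)
    (K := K') W hV1 (fun r => (IsLocalRing.mem_maximalIdeal r).trans (hV2 r))
  exact ⟨B', h1, h2, P', hP', h3, (IsRegularLocalRing.iff_finrank_cotangentSpace _).2 h5.symm⟩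

end Pool.Agent.Results.MP_3029eb_ag.AdmissibleTowersLU
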