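import Pool.Agent.N102.FL.LFin
import Pool.Agent.N169.FL.WT
import Pool.Agent.N433.FL.Pt
import Pool.Agent.N301.FL.Sys
import Pool.Agent.N595.FL.Cut
import Pool.Agent.N592.FL.Off

/-!
MP_3029eb_ag: local uniformization, in every dimension and in every characteristic `p > 0`, of local
rings of rings which are generated by monomials in the following sense.

The fraction field `K` is generated over a field `E` (which contains a perfect field `k`) by elements
`z 1, ..., z s` with arbitrary linear relations over `k` between `1` and the powers
`z t ^ (p ^ e t)` (`e t ≥ 0` arbitrary), and by elements `x 1, ..., x n` with equations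
`G i (v, z, x) = 0` (`v b` elements of `E`) which are schön in the directions of the `x j`, relative
to the torus of the variables of `(v, z)`. There are no other relations (`dimension`). The ring is
generated over a base ring `R₀` in `E` by products of powers of elements of `E`, of the `x j` and
of linear combinations over `k` of `1` and of powers `z t ^ (p ^ (e t - f))`, `f ≥ 0`. The base ring
is a Dedekind ring or a field with fraction field `E`, or more generally a ring such that the
valuations of `E` are log uniformizable over `R₀`; for instance any `k`-algebra of finite type of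
dimension at most `3` with fraction field `E`, by the theorem of Cossart and Piltant.

Example: the local rings of the irreducible components, with `x j ≠ 0` and dominating `Spec R₀`, of
the hypersurfaces `∑ j, c j * (v j * x j ^ (d j)) ^ (q j) = b` over `R₀`, where `c j, b ∈ k`, the `v j`
are nonzero elements of `R₀`, the `q j` are arbitrary powers of `p` and the `d j` are prime to `p`; and
the same for systems of such equations with arbitrary coefficients `c i j`, and with nondegenerate
forms `h j` of degree prime to `p` in disjoint sets of variables instead of `x j ^ (d j)`.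

The proof: (1) the system of the powers is saturated by finitely many roots, and then the
equations between the powers together with the `G i` are a schön system (helper files of
MP_b525bf_ag.FrobeniusLevels); (2) for a valuation ring `V` of `K` there are integral weights with
the same order on the finitely many terms of the equations, and the residues of the quotients of
terms define a common zero of the initial forms (`S_WT`, `S_PT`, `S_SYS`); (3) the gradients of
the initial forms are independent there, and this makes the Jacobian criterion work along `V`
(`S_CUT`) on a model of the torus over a log uniformization of `V ∩ E` on which all monomials in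
question divide each other (methods of the starting file MonomialLocalRings).
-/

set_option autoImplicit false

universe u

namespace Pool.Agent.Results.MP_3029eb_ag.FrobeniusLevelsLU

open Pool.Agent.W418.LU2 Pool.Agent.N102.FL Pool.Agent.TH214.SD

/-- The local ring of `Spec B` at the centre of the valuation ring `V`: the fractions of elements
of `B` whose denominators are units of `V`. -/
def centreRing {F : Type u} [Field F] (V : ValuationSubring F) (B : Subring F) : Subring F where
  carrier := {x | ∃ a ∈ B, ∃ b ∈ B, b ≠ 0 ∧ b⁻¹ ∈ V ∧ x = a * b⁻¹}
  mul_mem' := (lo V.toSubring B).mul_mem'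
  one_mem' := (lo V.toSubring B).one_mem'
  add_mem' := (lo V.toSubring B).add_mem'
  zero_mem' := (lo V.toSubring B).zero_mem'
  neg_mem' := (lo V.toSubring B).neg_mem'

/-- The chart `A[I / f]` of the blowing-up of `Spec A` in the ideal `I`. -/
def blowUpChart {F : Type u} [Field F] (A : Subring F) (I : Ideal A) (f : A) : Subring F :=
  Subring.closure ((A : Set F) ∪ {z | ∃ a ∈ I, z = (a : F) / (f : F)})

/-- `P` is a regular local ring and the zero set of `J` is a divisor with strict normal
crossings: the radical of `J` is generated by the product of some of the elements of a regular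
system of parameters. -/
def RegularPair (P : Type u) [CommRing P] (J : Ideal P) : Prop :=
  ∃ (_ : IsRegularLocalRing P) (n : ℕ) (x : Fin n → P) (s : Finset (Fin n)),
    Ideal.span (Set.range x) = IsLocalRing.maximalIdeal P ∧ ringKrullDim P = n ∧
      J.radical = Ideal.span {∏ i ∈ s, x i}

/-- The blowing-up of `X = Spec A` in `V(I)` is a log desingularization of `(X, V(D))` along the
valuation ring `U`: it is regular at the centre of the lift of the valuation, and the preimage of
`V(D) ∪ V(I)` is a divisor with strict normal crossings there. Here `f ∈ I` generates `I U`. -/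
def IsLogDesingularization {F : Type u} [Field F] (U : ValuationSubring F) (A : Subring F)
    (D I : Ideal A) : Prop :=
  ∃ f ∈ I, f ≠ 0 ∧ (∀ a ∈ I, (a : F) / (f : F) ∈ U) ∧
    RegularPair (centreRing U (blowUpChart A I f))
      (Ideal.span {z | ∃ a ∈ D * I, (z : F) = (a : F)})

/-- The valuation ring `U` is log uniformizable on `Spec A`. (The blowings-up in the ideals
`I₀ * I₁` are cofinal.) -/
def IsLogUniformizable {F : Type u} [Field F] (U : ValuationSubring F) (A : Subring F) : Prop :=
  ∀ D I₀ : Ideal A, D ≠ ⊥ → I₀ ≠ ⊥ →
    ∃ I₁ : Ideal A, I₁ ≠ ⊥ ∧ IsLogDesingularization U A D (I₀ * I₁)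

/-- `E` is the field of fractions of its subring `R`. -/
def IsFieldOfFractions {E : Type u} [Field E] (R : Subring E) : Prop :=
  ∀ z : E, ∃ a ∈ R, ∃ b ∈ R, b ≠ 0 ∧ z = a * b⁻¹

/-- Every valuation ring `U` of `E` which contains `R₀` contains a finitely generated `R₀`-algebra
`R'` with fraction field `E` which is a Dedekind ring (or a field), or which is noetherian and
such that `U` is log uniformizable on `Spec R'`. -/
def HasLogUniformization {E : Type u} [Field E] (R₀ : Subring E) : Prop :=
  ∀ U : ValuationSubring E, R₀ ≤ U.toSubring → ∃ R' : Subring E,
    (∃ S : Set E, S.Finite ∧ R' = Subring.closure ((R₀ : Set E) ∪ S)) ∧ R' ≤ U.toSubring ∧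
    IsFieldOfFractions R' ∧ (IsDedekindDomain R' ∨ IsNoetherianRing R' ∧ IsLogUniformizable U R')

/-- The subring `A` of `K` is generated over the image of `R₀` by finitely many monomials. -/
def IsMonomialRing (k : Type u) {E K : Type u} [Field k] [Field E] [Field K] [Algebra k K]
    [Algebra E K] (p : ℕ) {s n : ℕ} (e : Fin s → ℕ) (z : Fin s → K) (x : Fin n → K)
    (R₀ : Subring E) (A : Subring K) : Prop :=
  ∃ M : Set K, M.Finite ∧ (∀ w ∈ M, ∃ u ∈ monomials k E p e z x, (u : K) = w) ∧
    A = Subring.closure ((R₀.map (algebraMap E K) : Set K) ∪ M)

/-- The local domain `R` with fraction field `K` admits local uniformization: for every valuation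
ring `V` of `K` centred on `R` there is a finitely generated `R`-algebra `B` in `V` whose
localization at the centre of `V` is regular. -/
def AdmitsLocalUniformization (R K : Type u) [CommRing R] [Field K] [Algebra R K] : Prop :=
  ∀ V : ValuationSubring K, (∀ r : R, algebraMap R K r ∈ V) →
    (∀ r : R, r ∈ nonunits R ↔ V.valuation (algebraMap R K r) < 1) →
    ∃ B : Subalgebra R K, B.FG ∧ (∀ b : B, (b : K) ∈ V) ∧
      ∃ P : Ideal B, ∃ (_ : P.IsPrime),
        (∀ b : B, b ∈ P ↔ V.valuation (b : K) < 1) ∧
        IsRegularLocalRing (Localization.AtPrime P)

/-- Let `k ⊆ E ⊆ K` be fields, `k` perfect of characteristic `p > 0`, let `R₀` be a subring of `E`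
which contains `k`, such that `R₀` is a Dedekind ring (or a field) with fraction field `E`, or such
that the valuation rings of `E` which contain `R₀` are log uniformizable over `R₀`. Let `K` be
generated over `E` by the coordinates `z t` and `x j` of a relative schön system over a system of
linear relations between powers `z t ^ (p ^ e t)` (`IsLeveledSystemOver`). Let `A` be a subring of
`K` which is generated over `R₀` by finitely many monomials, and let `R` be the local ring of `A` at
a prime ideal. If `K` is the fraction field of `R`, then `R` admits local uniformization. -/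
theorem result {p : ℕ} [Fact p.Prime] {k E K : Type u} [Field k] [PerfectField k] [CharP k p]
    [Field E] [Field K] [Algebra k E] [Algebra k K] [Algebra E K] [IsScalarTower k E K]
    (R₀ : Subring E) (hk : ∀ a : k, algebraMap k E a ∈ R₀)
    (hR : (IsDedekindDomain R₀ ∧ IsFieldOfFractions R₀) ∨ HasLogUniformization R₀)
    {h s n q c : ℕ} (v : Fin h → E) (e : Fin s → ℕ) (z : Fin s → K) (x : Fin n → K)
    (G : Fin q → (Fin (h + s) ⊕ Fin n → ℤ) →₀ k) (hG : IsLeveledSystemOver p c v e z x G)
    (A : Subring K) (hA : IsMonomialRing k p e z x R₀ A) (P : Ideal A) [P.IsPrime]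
    (R : Type u) [CommRing R] [Algebra A R] [IsLocalization.AtPrime R P] [Algebra R K]
    [IsScalarTower A R K] [IsFractionRing R K] : AdmitsLocalUniformization R K := by
  have hLU : HasLU R₀ := by
    rcases hR with ⟨hR, hfr⟩ | hR
    · intro U hU
      have h1 : Subring.closure ((R₀ : Set E) ∪ ∅) = R₀ := by
        rw [Set.union_empty, Subring.closure_eq]
      refine ⟨∅, Set.finite_empty, ?_⟩
      rw [h1]
      exact ⟨hU, hfr, Or.inl hR⟩
    · intro U hU
      obtain ⟨R', ⟨S, hS, rfl⟩, h1, h2, h3⟩ := hR U hU
      exact ⟨S, hS, h1, h2, h3⟩
  obtain ⟨M, hM, hMm, hA⟩ := hA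
  have hsys : S_SYS.{u} := Pool.Agent.N301.FL.t_sys Pool.Agent.N169.FL.WT.t_wt
    Pool.Agent.N433.FL.t_pt
  have hoff : S_OFF.{u} := Pool.Agent.N592.FL.Off.t_off Pool.Agent.N595.FL.t_cut
  intro V hV1 hV2
  exact local_core hsys hoff hG R₀ hLU hk A M hM hMm hA P R V hV1 hV2

end Pool.Agent.Results.MP_3029eb_ag.FrobeniusLevelsLU
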