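import Pool.Agent.N864.GT.LU

/-!
MP_3029eb_ag: local uniformization, at all valuations, in every dimension and in mixed
characteristic, of the Noetherian local domains `R` with a Galois alteration `X ⟶ Spec R` with a
group `G` such that `Spec R` is birational to `X / G`, and such that the inertia groups of the
points of `X` are tame and cyclic, or of prime order (and possibly wild) with a condition on the
ideal of the fixed points. For example `R` is a local ring of `X / G`.

The scheme `X`, with the function field `K`, is given by homogeneous coordinates `H j` in `K`: its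
charts are the spectra of the rings `R[H 0 / H j, ..., H N / H j] ⊆ K`. The local rings of `X` are
considered as subrings of `K`. The scheme `X` can be singular at the points with inertia groups of
prime order: the condition is that the blowing up of the ideal of the fixed points is regular.
-/

set_option autoImplicit false

namespace Pool.Agent.Results.MP_3029eb_ag.GaloisAlterationsLU

section

variable {O K : Type} [CommRing O] [Field K] [Algebra O K]

/-- The ring `O[H 0 / H j, ..., H N / H j]` of the chart `H j ≠ 0`. -/
def chartRing (O : Type) {K : Type} [CommRing O] [Field K] [Algebra O K] {N : ℕ}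
    (H : Fin (N + 1) → K) (j : Fin (N + 1)) : Subring K :=
  (Algebra.adjoin O (Set.range fun l => H l / H j)).toSubring

/-- The local ring at the prime `𝔮` of the subring `A` of the field `K`, as a subring of `K`. -/
noncomputable def localRing (A : Subring K) (𝔮 : Ideal A) [𝔮.IsPrime] : Subring K :=
  (LocalSubring.ofPrime A 𝔮).toSubring

/-- The automorphism `σ` is in the inertia group of the point with the local ring `Q`: the ring `Q`
is stable under `σ`, which acts trivially on its residue field. -/
def IsFixed (σ : K ≃ₐ[O] K) (Q : Subring K) : Prop :=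
  ∀ x : Q, ∃ y : Q, (y : K) = σ x ∧ ¬ IsUnit (y - x)

/-- The ideal of the fixed scheme of `σ` in `Q`, generated by the elements `σ x - x`. -/
def fixedIdeal (σ : K ≃ₐ[O] K) (Q : Subring K) : Ideal Q :=
  Ideal.span {y : Q | ∃ x : Q, (y : K) = σ x - x}

/-- `σ` acts by a scalar `u` on the ideal of its fixed scheme modulo the square of this ideal. -/
def ActsByScalar (σ : K ≃ₐ[O] K) (Q : Subring K) : Prop :=
  ∃ u : Q, ∀ y ∈ fixedIdeal σ Q, ∀ y' : Q, (y' : K) = σ y → y' - u * y ∈ fixedIdeal σ Q ^ 2

/-- The ring `Q[I / y]` of an affine chart of the blowing up of the ideal `I` of the fixed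
scheme. -/
def chart (σ : K ≃ₐ[O] K) (Q : Subring K) (y : Q) : Subring K :=
  Subring.closure ((Q : Set K) ∪ {x | ∃ b ∈ fixedIdeal σ Q, x = (b : K) / y})

/-- The conditions on the generator `σ`, of prime order `p`, of the inertia group of the point with
the regular local ring `Q`. Either `p` is invertible in `Q` (tame inertia), and `p = 2` or `σ` acts
by a scalar on the conormal module of its fixed scheme. Or `σ = 1 + t δ` on `Q` (wild inertia),
where the ideal generated by the image of `δ` is the unit ideal, or it has a regular quotient and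
`p = 2` or `σ` acts by a scalar on the conormal module of its fixed scheme. -/
def GeneratorCondition (p : ℕ) (σ : K ≃ₐ[O] K) (Q : Subring K) : Prop :=
  (IsUnit (p : Q) ∧ (p = 2 ∨ ActsByScalar σ Q)) ∨
    ∃ (t : Q) (δ : Q → Q), t ≠ 0 ∧ (∀ x : Q, σ x = x + t * δ x) ∧
      (Ideal.span (Set.range δ) = ⊤ ∨
        (IsRegularLocalRing (Q ⧸ Ideal.span (Set.range δ)) ∧ (p = 2 ∨ ActsByScalar σ Q)))

/-- The conditions on the generator `σ`, of prime order `p`, of the inertia group of the point with
the local ring `Q`. Either the blowing up of the ideal of the fixed scheme of `σ` in `Q` is regular,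
and `p = 2` or `σ` acts by a scalar on the conormal module of its fixed scheme. Or `Q` is regular
with the conditions above. -/
def PrimeCondition (p : ℕ) (σ : K ≃ₐ[O] K) (Q : Subring K) : Prop :=
  ((∀ y ∈ fixedIdeal σ Q, y ≠ 0 → IsRegularRing (chart σ Q y)) ∧ (p = 2 ∨ ActsByScalar σ Q)) ∨
    (IsRegularLocalRing Q ∧ GeneratorCondition p σ Q)

/-- The inertia group in `G` of the point with the local ring `Q` is cyclic, generated by an element
`τ`. Either `Q` is regular and the order of `τ` is invertible in `Q` and a product of primes in `T`
(in particular if `τ = 1`), or the order is a prime which is not in `T`, with the conditions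
above. -/
def InertiaCondition (T : Set ℕ) (G : Subgroup (K ≃ₐ[O] K)) (Q : Subring K) : Prop :=
  ∃ τ ∈ G, (∀ σ ∈ G, IsFixed σ Q ↔ σ ∈ Subgroup.zpowers τ) ∧
    ((IsRegularLocalRing Q ∧ IsUnit ((orderOf τ : ℕ) : Q) ∧
        ∀ l : ℕ, l.Prime → l ∣ orderOf τ → l ∈ T) ∨
      ((orderOf τ).Prime ∧ orderOf τ ∉ T ∧ PrimeCondition (orderOf τ) τ Q))

/-- The coordinates `H j ≠ 0` define a projective scheme `X` over `O` with the function field `K`,
on which the finite group `G` acts by linear transformations, and the inertia groups of all points
of `X` satisfy the conditions above. -/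
structure IsGoodAction (T : Set ℕ) {N : ℕ} (H : Fin (N + 1) → K) (G : Subgroup (K ≃ₐ[O] K)) :
    Prop where
  ne_zero : ∀ j, H j ≠ 0
  functionField : Subfield.closure (chartRing O H 0 : Set K) = ⊤
  finite : Finite G
  linear : ∀ σ ∈ G, ∀ j, σ (H j) ∈ Submodule.span O (Set.range H)
  inertia : ∀ j (𝔮 : Ideal (chartRing O H j)) [𝔮.IsPrime],
    InertiaCondition T G (localRing (chartRing O H j) 𝔮)

end

/-- For every valuation `V` of the field of fractions of `R` centred at the maximal ideal of `R`,
there is a finitely generated `R`-subalgebra `B` in the valuation ring whose localization at the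
centre of `V` is regular. -/
def AdmitsLocalUniformization (R : Type) [CommRing R] : Prop :=
  ∀ (L : Type) [Field L] [Algebra R L] [IsFractionRing R L] (V : ValuationSubring L),
    (∀ r : R, algebraMap R L r ∈ V) →
    (∀ r : R, r ∈ nonunits R ↔ V.valuation (algebraMap R L r) < 1) →
    ∃ B : Subalgebra R L, B.FG ∧ (∀ b : B, (b : L) ∈ V) ∧
      ∃ P : Ideal B, ∃ (_ : P.IsPrime),
        (∀ b : B, b ∈ P ↔ V.valuation (b : L) < 1) ∧
        IsRegularLocalRing (Localization.AtPrime P)

/-- Let `R` be a Noetherian local domain (of any dimension and characteristic), let `X` be an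
integral projective scheme over `R` with the function field `K`, and let `G` be a finite group
acting on `X` over `R`, such that the inertia groups of the points of `X` satisfy the conditions
above (for some set `T` of primes) and the field of the invariants `K ^ G` is the field of fractions
of `R`. Then `R` admits local uniformization. -/
theorem result (R : Type) [CommRing R] [IsDomain R] [IsNoetherianRing R] [IsLocalRing R]
    (K : Type) [Field K] [Algebra R K] (hR : Function.Injective (algebraMap R K)) (N : ℕ)
    (H : Fin (N + 1) → K) (G : Subgroup (K ≃ₐ[R] K)) (T : Set ℕ) (hG : IsGoodAction T H G)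
    (hF : ∀ x : K, (∀ σ ∈ G, σ x = x) → ∃ a b : R, x = algebraMap R K a / algebraMap R K b) :
    AdmitsLocalUniformization R := by
  -- the inertia groups
  have key : ∀ (Q : Subring K), InertiaCondition T G Q →
      Pool.Agent.N864.GT.InertiaCondition7 T G.subtype Q := by
    intro Q hI
    have hord : ∀ g : G, orderOf g = orderOf (g : K ≃ₐ[R] K) := fun g =>
      (Subgroup.orderOf_coe g).symm
    have hzp : ∀ g τ : G, (g : K ≃ₐ[R] K) ∈ Subgroup.zpowers (τ : K ≃ₐ[R] K) ↔
        g ∈ Subgroup.zpowers τ := by
      intro g τ
      constructor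
      · rintro ⟨n, hn⟩
        exact ⟨n, Subtype.ext (by rw [← hn]; rfl)⟩
      · rintro ⟨n, rfl⟩
        exact ⟨n, rfl⟩
    obtain ⟨τ, hτ, hIτ, h⟩ := hI
    refine ⟨⟨τ, hτ⟩, fun g => (hIτ g g.2).trans (hzp g ⟨τ, hτ⟩), ?_⟩
    rw [hord ⟨τ, hτ⟩]
    exact h
  have hfin := hG.finite
  have hin := hG.inertia
  intro L _ _ _ V hV _
  obtain ⟨I, hI, w, J, hM⟩ := Pool.Agent.N864.GT9.rel_model7 hR H hG.ne_zero hG.functionField G
    hG.linear T (fun j 𝔮 h𝔮 => key _ (@hin j 𝔮 h𝔮)) hF L
  exact Pool.Agent.N864.GT9.lu_of_model hM V hV

end Pool.Agent.Results.MP_3029eb_ag.GaloisAlterationsLU
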