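import Pool.Agent.N98.RV.LUF

/-!
MP_3029eb_ag: local uniformization in bounded degree.

Let `K` be a function field over a field `E`, of transcendence degree `r` and degree at most `δ`,
and let `V` be a valuation ring of `K` whose residue field has characteristic `0` or
`> δ ^ 2 ^ r`. If `E` is the fraction field of a regular local ring `k` of dimension at most two
(with finite normalizations of its one-dimensional residue class domains) which is dominated by
`V`, or if the restriction of `V` to `E` is locally monomial (for example monomial with respect to
a regular system of parameters, of arbitrary rank), then `V` is uniformized. There are no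
conditions on the rank, the residue field, the value group and the defect of `V`.

The proof uses neither resolution of singularities in characteristic zero nor ramification theory.
One constructs regular models of the fields `E (z 1, ..., z i)` on which the members of families of
polynomials which are closed under derivatives, and their resultants, are locally monomial. For
`k` of dimension two the first step is the embedded resolution of curves on the spectrum of `k`
by quadratic transforms along the valuation.

helper98; built on the library of the starting files.
-/

set_option autoImplicit false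

namespace Pool.Agent.Results.MP_3029eb_ag.RelativeBoundedDegreeLU

/-- The values at the point `x` of the polynomials over `E` of total degree at most `t`. -/
noncomputable def values (E : Type) {K : Type} [Field E] [Field K] [Algebra E K] {N : ℕ}
    (x : Fin N → K) (t : ℕ) : Submodule E K :=
  (MvPolynomial.restrictTotalDegree (Fin N) E t).map
    (MvPolynomial.aeval x : MvPolynomial (Fin N) E →ₐ[E] K).toLinearMap

/-- The variety in the affine space over `E` with the generic point `x` (the zeros of the
polynomials which vanish at `x`), whose function field is `K`, has dimension `r` and degree at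
most `δ`: its Hilbert function, the dimension of the space of the polynomial functions of degree
at most `t` on the variety, is at most `δ * t ^ r / r! + O (t ^ (r - 1))`. -/
def DegreeAtMost (E : Type) {K : Type} [Field E] [Field K] [Algebra E K] {N : ℕ}
    (x : Fin N → K) (r δ : ℕ) : Prop :=
  IntermediateField.adjoin E (Set.range x) = ⊤ ∧ Algebra.trdeg E K = r ∧
    ∃ C : ℕ, ∀ t : ℕ, r.factorial * Module.finrank E (values E x t) ≤ δ * (t + C) ^ r

/-- The element `z` is a product of (positive or negative) powers of affine linear forms
`a 0 + a 1 * x 1 + ... + a N * x N` with coefficients in `E`. -/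
def IsProductOfForms (E : Type) {K : Type} [Field E] [Field K] [Algebra E K] {N : ℕ}
    (x : Fin N → K) (z : K) : Prop :=
  ∃ (q : ℕ) (a : Fin q → E) (b : Fin q → Fin N → E) (e : Fin q → ℤ),
    z = ∏ i, (algebraMap E K (a i) + ∑ j, algebraMap E K (b i j) * x j) ^ e i

/-- The ring `A` is regular and the elements `x i` define a divisor with strict normal crossings:
at each prime ideal `P` of `A` the local ring is regular, and those `x i` which lie in `P` are a
part of a regular system of parameters of it (their classes modulo the square of the maximal ideal
are linearly independent over the residue field). -/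
def IsSNC {A : Type} [CommRing A] {m : ℕ} (x : Fin m → A) : Prop :=
  ∀ (P : Ideal A) [P.IsPrime], IsRegularLocalRing (Localization.AtPrime P) ∧
    ∀ c : Fin m → Localization.AtPrime P, (∀ i, x i ∉ P → c i = 0) →
      ∑ i, c i * algebraMap A (Localization.AtPrime P) (x i) ∈
        IsLocalRing.maximalIdeal (Localization.AtPrime P) ^ 2 →
      ∀ i, c i ∈ IsLocalRing.maximalIdeal (Localization.AtPrime P)

/-- The nonzero element `f` of `E` is a sum of finitely many terms `c * ∏ i, x i ^ a i`, where the
`c` are elements of `A` which are units of the valuation ring `V` and the exponents are integers,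
such that no term has a smaller (additively written) value than `f`. -/
def IsMonomialSum {A E : Type} [CommRing A] [Field E] [Algebra A E] (V : ValuationSubring E)
    {m : ℕ} (x : Fin m → A) (f : E) : Prop :=
  f ≠ 0 ∧ ∃ (s : ℕ) (c : Fin s → A) (a : Fin s → Fin m → ℤ),
    (∀ l, V.valuation (algebraMap A E (c l)) = 1) ∧
    f = ∑ l, algebraMap A E (c l) * ∏ i, algebraMap A E (x i) ^ a l i ∧
    ∀ l, V.valuation (∏ i, algebraMap A E (x i) ^ a l i) ≤ V.valuation f

/-- The valuation ring `V` of `E` is locally monomial over `k`: for each finite family of nonzero
elements `h j` of `E` there is a regular `k`-algebra `A`, essentially of finite type, in `V`, with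
fraction field `E`, and a divisor with strict normal crossings on it, with equations `x i`, such
that the `h j` are quotients of monomial sums. (For example, a monomial valuation is locally
monomial: take `A = k`. A valuation which can be uniformized together with finite families of
divisors is locally monomial: then the `h j` are monomials times units.) -/
def IsLocallyMonomial (k : Type) {E : Type} [CommRing k] [Field E] [Algebra k E]
    (V : ValuationSubring E) : Prop :=
  ∀ (n : ℕ) (h : Fin n → E), (∀ j, h j ≠ 0) →
    ∃ (A : Type) (_ : CommRing A) (_ : Algebra k A) (_ : Algebra A E)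
      (_ : IsScalarTower k A E) (_ : IsFractionRing A E) (m : ℕ) (x : Fin m → A),
      Algebra.EssFiniteType k A ∧ (∀ a : A, algebraMap A E a ∈ V) ∧ IsSNC x ∧ (∀ i, x i ≠ 0) ∧
      ∀ j, ∃ f g, IsMonomialSum V x f ∧ IsMonomialSum V x g ∧ h j = f / g

/-- `k` is a regular local ring of dimension at most two with the fraction field `E`, which is
dominated by the valuation ring `V`, and the normalizations of its residue class domains are finite
(for example, `k` is excellent). There is no condition on `V`. -/
def IsCentredOnSurface (k : Type) {E : Type} [CommRing k] [Field E] [Algebra k E]
    (V : ValuationSubring E) : Prop :=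
  IsRegularLocalRing k ∧ ringKrullDim k ≤ 2 ∧ IsFractionRing k E ∧
  (∀ a : k, algebraMap k E a ∈ V) ∧
  (∀ a : k, a ∈ nonunits k ↔ V.valuation (algebraMap k E a) < 1) ∧
  ∀ (𝔭 : Ideal k) [𝔭.IsPrime], 𝔭 ≠ ⊥ →
    Module.Finite (k ⧸ 𝔭) (integralClosure (k ⧸ 𝔭) (FractionRing (k ⧸ 𝔭)))

/-- The valuation ring `V` of `K` is uniformized over `R`: there is a finitely generated
`R`-subalgebra `B` of `K` in `V` whose localization at the centre `P` of `V` is regular. -/
def IsUniformized (R : Type) {K : Type} [CommRing R] [Field K] [Algebra R K]
    (V : ValuationSubring K) : Prop :=
  ∃ B : Subalgebra R K, B.FG ∧ (∀ b : B, (b : K) ∈ V) ∧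
    ∃ P : Ideal B, ∃ (_ : P.IsPrime),
      (∀ b : B, b ∈ P ↔ V.valuation (b : K) < 1) ∧
      IsRegularLocalRing (Localization.AtPrime P)

/-- Let `k` be a noetherian ring, `E` an infinite field over `k`, and let `x = (x 1, ..., x N)` be
the generic point of an affine variety over `E` with function field `K`, of dimension `r` and degree
at most `δ`. Suppose that the primes `≤ δ ^ 2 ^ r` are invertible in `k`. Let `A` be a `k`-algebra
with fraction field `K` which is integral over the subalgebra generated by finitely many elements
which are products of powers of affine linear forms in the `x j` over `E` (for example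
`A = k[a 1, ..., a n, x 1, ..., x N]` with `a i ∈ E`, or its normalization), and let `R` be the
localization of `A` at a prime ideal. Let `V` be a valuation ring of `K` which is centred on `R`,
such that `k` is a regular local ring of dimension at most two (with finite normalizations), with
fraction field `E`, dominated by `V`, or such that the restriction of `V` to `E` is locally monomial
over `k`. Then `V` is uniformized over `R`. -/
theorem result (k E K : Type) [CommRing k] [IsNoetherianRing k] [Field E] [Infinite E] [Field K]
    [Algebra k E] [Algebra k K] [Algebra E K] [IsScalarTower k E K]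
    (N r δ : ℕ) (x : Fin N → K) (hx : DegreeAtMost E x r δ)
    (hp : ∀ p : ℕ, p.Prime → p ≤ δ ^ 2 ^ r → IsUnit (p : k))
    (A : Type) [CommRing A] [IsDomain A] [Algebra k A] [Algebra A K]
    [IsScalarTower k A K] [IsFractionRing A K] (m : ℕ) (s : Fin m → A)
    (hs : ∀ j, IsProductOfForms E x (algebraMap A K (s j)))
    (hA : ∀ a : A, IsIntegral (Algebra.adjoin k (Set.range s)) a)
    (q : Ideal A) [q.IsPrime] (R : Type) [CommRing R] [Algebra A R]
    [IsLocalization.AtPrime R q] [Algebra R K] [IsScalarTower A R K]
    (V : ValuationSubring K) (hV1 : ∀ z : R, algebraMap R K z ∈ V)
    (hV2 : ∀ z : R, z ∈ nonunits R ↔ V.valuation (algebraMap R K z) < 1)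
    (hV : IsCentredOnSurface k (V.comap (algebraMap E K)) ∨
      IsLocallyMonomial k (V.comap (algebraMap E K))) : IsUniformized R V := by
  obtain ⟨htop, htr, C, hC⟩ := hx
  choose q' a b e hse using hs
  refine Pool.Agent.N98.RV.lu_mainF x htop htr C hC hp s q' a b e hse hA q hV1 hV2 ?_
  rcases hV with ⟨h1, h2, h3, h4, h5, h6⟩ | hV
  · have hdom : IsDomain k := (IsFractionRing.injective k E).isDomain (algebraMap k E)
    exact Pool.Agent.N98.RV.hasF_of_dim_le_two h2 h4 h5 h6
  · exact Pool.Agent.N98.RV.hasF_of_mnz hV

end Pool.Agent.Results.MP_3029eb_ag.RelativeBoundedDegreeLU
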